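import Pool.Agent.H.MP_44257e_co.Glue

/-!
# MP_44257e_co: `N({0,1,3}, 7) ≥ 45`
-/

namespace Pool.Agent.Results.MP_44257e_co.FortyFive

open MP44257e

/-- On 45 points there are 506 sets of size 7 that pairwise meet in 0, 1 or 3 points, more than the
bound (i) allows; hence the threshold `N({0,1,3}, 7)` is at least 45. -/
theorem result :
    (∃ A : Finset (Finset (Fin 45)), IsFam [0, 1, 3] 7 A ∧ A.card = 506 ∧
      bound [0, 1, 3] 7 45 < A.card) ∧
    ∀ N, IsThreshold [0, 1, 3] 7 N → 45 ≤ N := by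
  obtain ⟨B, h1, h2⟩ := exists_506
  have hb : bound [0, 1, 3] 7 45 < (B.card : ℚ) := by
    rw [h2]
    norm_num [bound]
  exact ⟨⟨_, h1, h2, hb⟩, fun N hN => threshold_ge (not_good h1 hb) hN⟩

end Pool.Agent.Results.MP_44257e_co.FortyFive
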