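import Pool.Agent.H.MP_44257e_co.Q45

/-!
# MP_44257e_co: `N({0,1,3}, 9) ≥ 46`
-/

namespace Pool.Agent.Results.MP_44257e_co.FortySix

open MP44257e

/-- On 46 points there are 220 sets of size 9 that pairwise meet in 0, 1 or 3 points, more than the
bound (i) allows; hence the threshold `N({0,1,3}, 9)` is at least 46. -/
theorem result :
    (∃ A : Finset (Finset (Fin 46)), IsFam [0, 1, 3] 9 A ∧ A.card = 220 ∧
      bound [0, 1, 3] 9 46 < A.card) ∧
    ∀ N, IsThreshold [0, 1, 3] 9 N → 46 ≤ N := by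
  obtain ⟨h1, h2⟩ := listQ_fam
  have hb : bound [0, 1, 3] 9 46 < ((famOf 46 listQ).card : ℚ) := by
    rw [h2]
    norm_num [bound]
  exact ⟨⟨_, h1, h2, hb⟩, fun N hN => threshold_ge (not_good h1 hb) hN⟩

end Pool.Agent.Results.MP_44257e_co.FortySix
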