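import Pool.Agent.H.MP_44257e_co.O24

/-!
# MP_44257e_co: `N({0,1,2,4}, 8) ≥ 33`
-/

namespace Pool.Agent.Results.MP_44257e_co.ThirtyThree

open MP44257e

/-- On 33 points there are 759 sets of size 8 that pairwise meet in 0, 1, 2 or 4 points, more than
the bound (i) allows; hence the threshold `N({0,1,2,4}, 8)` is at least 33. -/
theorem result :
    (∃ A : Finset (Finset (Fin 33)), IsFam [0, 1, 2, 4] 8 A ∧ A.card = 759 ∧
      bound [0, 1, 2, 4] 8 33 < A.card) ∧
    ∀ N, IsThreshold [0, 1, 2, 4] 8 N → 33 ≤ N := by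
  obtain ⟨h1, h2⟩ := listO_fam
  have hb : bound [0, 1, 2, 4] 8 33 < ((famOf 33 listO).card : ℚ) := by
    rw [h2]
    norm_num [bound]
  exact ⟨⟨_, h1, h2, hb⟩, fun N hN => threshold_ge (not_good h1 hb) hN⟩

end Pool.Agent.Results.MP_44257e_co.ThirtyThree
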