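import Pool.Agent.H.MP_44257e_co.UC.L12
import Pool.Agent.H.MP_44257e_co.UD.Fin4
import Pool.Agent.H.MP_44257e_co.UF.Fin
import Pool.Agent.H.MP_44257e_co.UH.Fin

/-!
# `N({0,1,t}, n + t) ≤ n (n+2)^2 / 2 + t` for `4 ≤ t`, `2 t ≤ n`, and `≤ 3 n^3 / √t + t` for
`36 ≤ t`, `t^2 ≤ 2 n`; and
`N({0,1,3}, 9) ≤ 213`, `N({0,1,3}, 7) ≤ 78`, `N({0,1,2,4}, 8) ≤ 79`
-/

namespace Pool.Agent.Results.MP_44257e_co.UpperBound

open MP44257e

/-- Properties (i) and (ii) for `T = {0, 1, 3}`, `k = 9`, `v ≥ 214`. -/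
theorem good_013_9' {v : ℕ} (hv : 214 ≤ v) : Good [0, 1, 3] 9 v := by
  refine good_of_point (n := 6) (by omega) (by omega) fun A hA x => pointOK_of_pairs fun y hy => ?_
  have h1 : ¬ Sun A x y → (thr A x y).card * 6 < v - 3 := fun hs =>
    thr_bound_9 hv hA hy.symm hs
  refine ⟨?_, h1⟩
  by_cases hs : Sun A x y
  · have := sun_le (W := Finset.univ) hA hy.symm hs (by simp; omega) (Finset.subset_univ _)
    simpa using this
  · exact (h1 hs).le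

private theorem thr_of_good {T : List ℕ} {k N₀ : ℕ} (h : ∀ v, N₀ < v → Good T k v) :
    ∃ N, IsThreshold T k N ∧ N ≤ N₀ :=
  ⟨sInf {N : ℕ | ∀ v, N < v → Good T k v},
    ⟨Nat.sInf_mem ⟨N₀, h⟩, fun _ hN => Nat.sInf_le hN⟩, Nat.sInf_le h⟩

private theorem sqrt_bound {n t N : ℕ} (ht : 36 ≤ t)
    (h : N ≤ t + Nat.sqrt (9 * n ^ 6 / t)) :
    (N : ℝ) ≤ 3 * (n : ℝ) ^ 3 / Real.sqrt t + t := by
  have ht0 : 0 < t := by omega
  have htR : (0 : ℝ) < t := by exact_mod_cast ht0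
  have hs : 0 < Real.sqrt t := Real.sqrt_pos.2 htR
  obtain ⟨w, hw⟩ : ∃ w, w = Nat.sqrt (9 * n ^ 6 / t) := ⟨_, rfl⟩
  rw [← hw] at h
  have h1 : w * w ≤ 9 * n ^ 6 / t := by
    rw [hw]
    exact Nat.sqrt_le _
  have h2 : t * (w * w) ≤ 9 * n ^ 6 :=
    (Nat.mul_le_mul_left t h1).trans (Nat.mul_div_le _ _)
  have h3 : (t : ℝ) * (w * w) ≤ 9 * (n : ℝ) ^ 6 := by exact_mod_cast h2
  have h4 : (w : ℝ) ≤ 3 * (n : ℝ) ^ 3 / Real.sqrt t := by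
    rw [le_div_iff₀ hs]
    apply le_of_sq_le_sq _ (by positivity)
    rw [mul_pow, Real.sq_sqrt htR.le]
    nlinarith
  have h5 : (N : ℝ) ≤ t + w := by exact_mod_cast h
  linarith

/-- The thresholds exist, and: `N({0,1,t}, n + t) ≤ n (n+2)^2 / 2 + t` for all `t ≥ 4` and
`n ≥ 2 t`, and `≤ 3 n^3 / √t + t` if moreover `t ≥ 36` and `t^2 ≤ 2 n` (all projective pairs with
`m = 3`, `q ≥ 3`: `t = q + 1`, `n = q^2`; all affine pairs with `m = 2`, `q ≥ 4`: `t = q`,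
`n = q^2 - q`); `N({0,1,3}, 9) ≤ 213` (the affine pair `q = 3`, `m = 2`), `N({0,1,3}, 7) ≤ 78` (the
projective pair `q = 2`, `m = 3`) and `N({0,1,2,4}, 8) ≤ 79` (the affine pair `q = 2`, `m = 3`). -/
theorem result :
    (∀ t n : ℕ, 4 ≤ t → 2 * t ≤ n →
      ∃ N, IsThreshold [0, 1, t] (n + t) N ∧ 2 * N ≤ n * (n + 2) ^ 2 + 2 * t ∧
        (36 ≤ t → t ^ 2 ≤ 2 * n → (N : ℝ) ≤ 3 * (n : ℝ) ^ 3 / Real.sqrt t + t)) ∧
    (∃ N, IsThreshold [0, 1, 3] 9 N ∧ N ≤ 213) ∧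
    (∃ N, IsThreshold [0, 1, 3] 7 N ∧ N ≤ 78) ∧
    ∃ N, IsThreshold [0, 1, 2, 4] 8 N ∧ N ≤ 79 := by
  refine ⟨fun t n ht hn => ?_, thr_of_good fun _ hv => good_013_9' hv,
    thr_of_good fun _ hv => good_013_7 hv, thr_of_good fun _ hv => good_0124_8 hv⟩
  obtain ⟨N, h1, h2⟩ := thr_of_good (T := [0, 1, t]) (k := n + t)
    (N₀ := (n * (n + 2) ^ 2 + 2 * t) / 2) fun v hv => good_01u ht hn (by omega)
  refine ⟨N, h1, by omega, fun ht36 htn => sqrt_bound ht36 (h1.2 ?_)⟩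
  intro v hv
  refine good_01w ht36 htn ?_
  have ht0 : 0 < t := by omega
  have h3 : Nat.sqrt (9 * n ^ 6 / t) < v - t := by omega
  have h4 : 9 * n ^ 6 / t < (v - t) ^ 2 := by
    rw [pow_two]
    exact Nat.sqrt_lt.1 h3
  have h5 : 9 * n ^ 6 < (v - t) ^ 2 * t := (Nat.div_lt_iff_lt_mul ht0).1 h4
  rw [mul_comm t]
  exact h5.le

end Pool.Agent.Results.MP_44257e_co.UpperBound
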